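import Pool.Agent.Lib.Pec6744.Bound

/-!
# `limsup g(k,n)/n ≤ ⌊k/2⌋ + 1`
-/

namespace Pool.Agent.Results.MP_ec6744_co.FloorBound

/-- `N` has the property of the problem for `k` and `n`: every planar set of `N` points, no three
on a line, has an `n`-element subset whose convex hull has at least `k` vertices. -/
def Good (k n N : ℕ) : Prop :=
  ∀ S : Finset (EuclideanSpace ℝ (Fin 2)), S.card = N →
    (∀ a ∈ S, ∀ b ∈ S, ∀ c ∈ S, a ≠ b → a ≠ c → b ≠ c →
      ¬ Collinear ℝ ({a, b, c} : Set (EuclideanSpace ℝ (Fin 2)))) →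
    ∃ T : Finset (EuclideanSpace ℝ (Fin 2)), T ⊆ S ∧ T.card = n ∧
      k ≤ ({p : EuclideanSpace ℝ (Fin 2) | p ∈ T ∧
            p ∉ convexHull ℝ ((T : Set (EuclideanSpace ℝ (Fin 2))) \ {p})}).ncard

/-- the function `g(k,n)` of the problem -/
noncomputable def g (k n : ℕ) : ℕ := sInf {N : ℕ | Good k n N}

open Pool.Agent.Lib.Pec6744

lemma collinear_of_orient {a b c : E2} (hab : a ≠ b) (h : orient a b c = 0) :
    Collinear ℝ ({a, b, c} : Set E2) := by
  rw [collinear_iff_of_mem (p₀ := a) (by simp)]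
  refine ⟨b - a, ?_⟩
  intro p hp
  rcases hp with rfl | rfl | hp
  · exact ⟨0, by simp⟩
  · exact ⟨1, by simp⟩
  · rw [Set.mem_singleton_iff] at hp
    subst hp
    unfold orient at h
    by_cases h0 : b 0 - a 0 = 0
    · have h1 : b 1 - a 1 ≠ 0 := by
        intro h1
        apply hab
        ext i
        fin_cases i
        · show a 0 = b 0
          linarith
        · show a 1 = b 1
          linarith
      have h2 : p 0 - a 0 = 0 := by
        rw [h0] at h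
        have : (b 1 - a 1) * (p 0 - a 0) = 0 := by linarith
        exact (mul_eq_zero.1 this).resolve_left h1
      refine ⟨(p 1 - a 1) / (b 1 - a 1), ?_⟩
      ext i
      fin_cases i
      · show p 0 = (p 1 - a 1) / (b 1 - a 1) * (b 0 - a 0) + a 0
        rw [h0]; linarith
      · show p 1 = (p 1 - a 1) / (b 1 - a 1) * (b 1 - a 1) + a 1
        field_simp
        ring
    · refine ⟨(p 0 - a 0) / (b 0 - a 0), ?_⟩
      ext i
      fin_cases i
      · show p 0 = (p 0 - a 0) / (b 0 - a 0) * (b 0 - a 0) + a 0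
        field_simp
        ring
      · show p 1 = (p 0 - a 0) / (b 0 - a 0) * (b 1 - a 1) + a 1
        field_simp
        linarith

lemma good_of_large (k : ℕ) (hk : 3 ≤ k) (ε : ℝ) (hε : 0 < ε) :
    ∃ n0 : ℕ, ∀ n : ℕ, n0 ≤ n → ∀ N : ℕ, (((k / 2 : ℕ) : ℝ) + 1 + ε) * n ≤ N → Good k n N := by
  obtain ⟨n0, h⟩ := upper_bound (k / 2) (by omega) ε hε
  refine ⟨n0, fun n hn N hN S hS hgp => ?_⟩
  obtain ⟨T, h1, h2, h3⟩ := h n hn S (by
    intro a ha b hb c hc hab hac hbc h0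
    exact hgp a ha b hb c hc hab hac hbc (collinear_of_orient hab h0)) (by rw [hS]; exact hN)
  refine ⟨T, h1, h2, le_trans ?_ h3⟩
  omega

/-- For every `k ≥ 3` we have `limsup g(k,n)/n ≤ ⌊k/2⌋ + 1`. -/
theorem result : ∀ k : ℕ, 3 ≤ k → ∀ ε : ℝ, 0 < ε → ∀ᶠ n : ℕ in Filter.atTop,
    (∀ N : ℕ, (((k / 2 : ℕ) : ℝ) + 1 + ε) * n ≤ N → Good k n N) ∧
    (g k n : ℝ) ≤ (((k / 2 : ℕ) : ℝ) + 1 + ε) * n := by
  intro k hk ε hε
  obtain ⟨n0, h0⟩ := good_of_large k hk ε hε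
  obtain ⟨n1, h1⟩ := good_of_large k hk (ε / 2) (by positivity)
  obtain ⟨n2, h2⟩ := exists_nat_gt (2 / ε)
  filter_upwards [Filter.eventually_ge_atTop (max n0 (max n1 n2))] with n hn
  have hn0 : n0 ≤ n := (le_max_left _ _).trans hn
  have hn1 : n1 ≤ n := ((le_max_left _ _).trans (le_max_right _ _)).trans hn
  have hn2 : n2 ≤ n := ((le_max_right _ _).trans (le_max_right _ _)).trans hn
  refine ⟨h0 n hn0, ?_⟩
  have hgood := h1 n hn1 _ (Nat.le_ceil _)
  have h3 : g k n ≤ ⌈(((k / 2 : ℕ) : ℝ) + 1 + ε / 2) * n⌉₊ := Nat.sInf_le hgood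
  have h4 : (g k n : ℝ) ≤ (⌈(((k / 2 : ℕ) : ℝ) + 1 + ε / 2) * n⌉₊ : ℝ) := by exact_mod_cast h3
  have h5 : (⌈(((k / 2 : ℕ) : ℝ) + 1 + ε / 2) * n⌉₊ : ℝ) < (((k / 2 : ℕ) : ℝ) + 1 + ε / 2) * n + 1 :=
    Nat.ceil_lt_add_one (by positivity)
  have h6 : 2 / ε < n := by
    have : (n2 : ℝ) ≤ n := by exact_mod_cast hn2
    linarith
  rw [div_lt_iff₀ hε] at h6
  nlinarith

end Pool.Agent.Results.MP_ec6744_co.FloorBound
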